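import Mathlib

/-!
# The two counts for the discriminant of a Lagrangian fibration over the plane

`Δ = ⋃ Δ_i`, `deg i` is the degree of `Δ_i`, `T_i` the local monodromy at a general point of `Δ_i` on the
unimodular lattice `H'` of rank four, `r i` the rank of `T_i - 1` and `ord i` the order of vanishing
of Igusa's cusp form `χ_10`, a section of `O(30)`, along `Δ_i`.
-/

namespace Pool.Agent.H11.KT

/-- The kinds of the local monodromies. -/
inductive Kind where
  /-- `T = 1 + n E(v, .) v`; `χ_10` vanishes to the order `n + 2 j` -/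
  | uni (n j : ℕ)
  /-- `T` is the identity on the complement of a unimodular sublattice of rank two, where it has finite
  order; `e = 12 α` is the Euler number in Kodaira's table; `χ_10` vanishes to the order `e + 2 j` -/
  | tail (e j : ℕ)
  /-- the other cases, where `χ_10` vanishes at least to the order five -/
  | rest (o : ℕ)

namespace Kind

/-- the rank of `T - 1` -/
def r : Kind → ℕ
  | uni n _ => if n = 0 then 0 else 1
  | tail _ _ => 2
  | rest _ => 2

/-- the order of vanishing of `χ_10` -/
def ord : Kind → ℕ
  | uni n j => n + 2 * j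
  | tail e j => e + 2 * j
  | rest o => 5 + o

/-- the Euler number is at least two -/
def Ok : Kind → Prop
  | uni _ _ => True
  | tail e _ => 2 ≤ e
  | rest _ => True

theorem r_le_ord : ∀ k : Kind, k.Ok → k.r ≤ k.ord
  | uni n j, _ => by
      simp only [r, ord]
      split_ifs <;> omega
  | tail e j, h => by
      simp only [r, ord]
      have : 2 ≤ e := h
      omega
  | rest o, _ => by
      simp only [r, ord]
      omega

/-- the kinds with `ord = r` -/
theorem of_eq : ∀ k : Kind, k.Ok → k.ord = k.r → k = uni 0 0 ∨ k = uni 1 0 ∨ k = tail 2 0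
  | uni n j, _, h => by
      simp only [r, ord] at h
      split_ifs at h with h0
      · left
        have : j = 0 := by omega
        rw [h0, this]
      · right; left
        have h1 : n = 1 := by omega
        have h2 : j = 0 := by omega
        rw [h1, h2]
  | tail e j, hk, h => by
      simp only [r, ord] at h
      have : 2 ≤ e := hk
      right; right
      have h1 : e = 2 := by omega
      have h2 : j = 0 := by omega
      rw [h1, h2]
  | rest o, _, h => by
      simp only [r, ord] at h
      omega

/-- the kinds with `ord = r + 1` -/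
theorem of_succ : ∀ k : Kind, k.Ok → k.ord = k.r + 1 → k = uni 2 0 ∨ k = tail 3 0
  | uni n j, _, h => by
      simp only [r, ord] at h
      split_ifs at h with h0
      · omega
      · left
        have h1 : n = 2 := by omega
        have h2 : j = 0 := by omega
        rw [h1, h2]
  | tail e j, hk, h => by
      simp only [r, ord] at h
      have : 2 ≤ e := hk
      right
      have h1 : e = 3 := by omega
      have h2 : j = 0 := by omega
      rw [h1, h2]
  | rest o, _, h => by
      simp only [r, ord] at h
      omega

end Kind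

/-- **The count.** `χ_10` is not zero: there are no products over `P² - Δ` (`h` is half the
multiplicity of the product divisor), and with the possible exception of one line all the local
monodromies are trivial, simple transvections or of type II. -/
theorem count {I : Type*} [Fintype I] (deg : I → ℕ) (hdeg : ∀ i, 0 < deg i) (k : I → Kind)
    (hk : ∀ i, (k i).Ok) {h : ℕ} (h1 : 29 ≤ ∑ i, deg i * (k i).r)
    (h2 : ∑ i, deg i * (k i).ord + 2 * h = 30) :
    h = 0 ∧
      ((∀ i, k i = .uni 0 0 ∨ k i = .uni 1 0 ∨ k i = .tail 2 0) ∨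
        ∃ i₀, deg i₀ = 1 ∧ (k i₀ = .uni 2 0 ∨ k i₀ = .tail 3 0) ∧
          ∀ i, i ≠ i₀ → k i = .uni 0 0 ∨ k i = .uni 1 0 ∨ k i = .tail 2 0) := by
  classical
  have hle : ∀ i, deg i * (k i).r ≤ deg i * (k i).ord := fun i =>
    Nat.mul_le_mul_left _ (Kind.r_le_ord _ (hk i))
  have hsum : ∑ i, deg i * (k i).r ≤ ∑ i, deg i * (k i).ord :=
    Finset.sum_le_sum fun i _ => hle i
  have hh : h = 0 := by omega
  refine ⟨hh, ?_⟩
  by_cases hall : ∀ i, (k i).ord = (k i).r
  · left
    exact fun i => Kind.of_eq _ (hk i) (hall i)
  · right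
    push Not at hall
    obtain ⟨i₀, hi₀⟩ := hall
    have hlt : (k i₀).r + 1 ≤ (k i₀).ord := by
      have := Kind.r_le_ord _ (hk i₀)
      omega
    have e1 : deg i₀ * (k i₀).r + ∑ i ∈ Finset.univ.erase i₀, deg i * (k i).r =
        ∑ i, deg i * (k i).r :=
      Finset.add_sum_erase _ (fun i => deg i * (k i).r) (Finset.mem_univ i₀)
    have e2 : deg i₀ * (k i₀).ord + ∑ i ∈ Finset.univ.erase i₀, deg i * (k i).ord =
        ∑ i, deg i * (k i).ord :=
      Finset.add_sum_erase _ (fun i => deg i * (k i).ord) (Finset.mem_univ i₀)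
    have e3 : ∑ i ∈ Finset.univ.erase i₀, deg i * (k i).r ≤
        ∑ i ∈ Finset.univ.erase i₀, deg i * (k i).ord := Finset.sum_le_sum fun i _ => hle i
    have e4 : deg i₀ * (k i₀).r + deg i₀ ≤ deg i₀ * (k i₀).ord := by
      calc deg i₀ * (k i₀).r + deg i₀ = deg i₀ * ((k i₀).r + 1) := by ring
        _ ≤ _ := Nat.mul_le_mul_left _ hlt
    have hd := hdeg i₀
    have hd1 : deg i₀ = 1 := by omega
    have e5 : (k i₀).ord = (k i₀).r + 1 := by
      rw [hd1] at e1 e2
      omega
    refine ⟨i₀, hd1, Kind.of_succ _ (hk i₀) e5, fun i hi => ?_⟩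
    refine Kind.of_eq _ (hk i) ?_
    have e6 : ∑ i ∈ Finset.univ.erase i₀, deg i * (k i).ord ≤
        ∑ i ∈ Finset.univ.erase i₀, deg i * (k i).r := by
      rw [hd1] at e1 e2
      omega
    have hmem : i ∈ Finset.univ.erase i₀ := Finset.mem_erase.mpr ⟨hi, Finset.mem_univ i⟩
    by_contra hne
    have hlt' : (k i).r < (k i).ord := by
      have := Kind.r_le_ord _ (hk i)
      omega
    have := Finset.sum_lt_sum (fun j (_ : j ∈ Finset.univ.erase i₀) => hle j)
      ⟨i, hmem, Nat.mul_lt_mul_of_pos_left hlt' (hdeg i)⟩
    omega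

/-- **The product case is impossible.** If all the fibres are products `E_1 × E_2` then
`Δ(τ_1) Δ(τ_2)` is a section of `O(36)`; `swap i` says that `T_i` exchanges the factors, then
`r i = 2` and the order of vanishing is at least six; the double covering which separates the factors
is branched along a curve of positive even degree. -/
theorem no_product {I : Type*} [Fintype I] (deg r ord : I → ℕ) (swap : I → Prop)
    [DecidablePred swap] (hr : ∀ i, swap i → r i = 2) (ho : ∀ i, swap i → 6 ≤ ord i)
    (hle : ∀ i, ¬ swap i → r i ≤ ord i) (h0 : ∃ i, swap i ∧ 0 < deg i)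
    (heven : Even (∑ i with swap i, deg i)) (h1 : 29 ≤ ∑ i, deg i * r i)
    (h2 : ∑ i, deg i * ord i ≤ 36) : False := by
  have key : ∀ i, deg i * r i + (if swap i then 4 * deg i else 0) ≤ deg i * ord i := by
    intro i
    split_ifs with h
    · have h3 := ho i h
      rw [hr i h]
      calc deg i * 2 + 4 * deg i = deg i * 6 := by ring
        _ ≤ _ := Nat.mul_le_mul_left _ h3
    · rw [add_zero]
      exact Nat.mul_le_mul_left _ (hle i h)
  have hs := Finset.sum_le_sum fun i (_ : i ∈ (Finset.univ : Finset I)) => key i
  rw [Finset.sum_add_distrib, ← Finset.sum_filter, ← Finset.mul_sum] at hs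
  obtain ⟨i, hi, hd⟩ := h0
  have hpos : 0 < ∑ i with swap i, deg i :=
    lt_of_lt_of_le hd (Finset.single_le_sum (f := deg) (fun j _ => Nat.zero_le _)
      (Finset.mem_filter.mpr ⟨Finset.mem_univ i, hi⟩))
  obtain ⟨c, hc⟩ := heven
  omega

end Pool.Agent.H11.KT
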