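import Pool.Agent.H11.KT.Rk

/-!
# The classification of the local monodromies
-/

namespace Pool.Agent.H29.KT

theorem E_eq_zero {v : V4} (h : ∀ y, E v y = 0) : v = 0 := by
  have h0 := h ![0, 1, 0, 0]
  have h1 := h ![1, 0, 0, 0]
  have h2 := h ![0, 0, 0, 1]
  have h3 := h ![0, 0, 1, 0]
  simp [E] at h0 h1 h2 h3
  funext i
  fin_cases i
  · exact h0
  · exact h1
  · exact h2
  · exact h3

/-- a nonzero vector is a multiple of a vector which has a pairing `1` -/
theorem exists_primitive (w : V4) (hw : w ≠ 0) :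
    ∃ (g : ℤ) (v y : V4), w = g • v ∧ E v y = 1 := by
  let φ : V4 →ₗ[ℤ] ℤ :=
    { toFun := E w
      map_add' := E_add_right w
      map_smul' := fun k x => by rw [E_smul_right]; rfl }
  obtain ⟨g, hg⟩ := (IsPrincipalIdealRing.principal (R := ℤ) (LinearMap.range φ)).principal
  have hg1 : g ∈ LinearMap.range φ := by
    rw [hg]; exact Submodule.mem_span_singleton_self g
  obtain ⟨y0, hy0⟩ := hg1
  have hdvd : ∀ y, g ∣ E w y := by
    intro y
    have : E w y ∈ LinearMap.range φ := ⟨y, rfl⟩
    rw [hg] at this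
    exact Ideal.mem_span_singleton.1 this
  have hy0' : E w y0 = g := hy0
  have h0 := hdvd ![0, 1, 0, 0]
  have h1 := hdvd ![1, 0, 0, 0]
  have h2 := hdvd ![0, 0, 0, 1]
  have h3 := hdvd ![0, 0, 1, 0]
  simp [E] at h0 h1 h2 h3
  obtain ⟨v0, h0⟩ := h0
  obtain ⟨v1, h1⟩ := h1
  obtain ⟨v2, h2⟩ := h2
  obtain ⟨v3, h3⟩ := h3
  have hwv : w = g • ![v0, v1, v2, v3] := by
    funext i
    fin_cases i
    · simpa using h0
    · simpa using h1
    · simpa using h2
    · simpa using h3
  have hg0 : g ≠ 0 := by
    rintro rfl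
    rw [zero_smul] at hwv
    exact hw hwv
  refine ⟨g, ![v0, v1, v2, v3], y0, hwv, ?_⟩
  have : g * E ![v0, v1, v2, v3] y0 = g * 1 := by
    rw [← E_smul_left, ← hwv, hy0', mul_one]
  exact mul_left_cancel₀ hg0 this

/-- if all `T x - x` are multiples of one vector then `T` is unipotent of rank at most one -/
theorem Mono.unip_of_line (M : Mono) (h : ∃ w, ∀ x, ∃ c : ℤ, M.T x = x + c • w) :
    ∃ n : ℕ, M.IsUnip n := by
  obtain ⟨w, hw⟩ := h
  by_cases hw0 : w = 0
  · refine ⟨0, ![1, 0, 0, 0], ?_, ?_⟩
    · intro r w' hr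
      have := congrFun hr 0
      simp only [Matrix.cons_val_zero, Pi.smul_apply] at this
      have h1 : (r : ℤ) ∣ 1 := ⟨w' 0, by rw [this]; simp⟩
      have := Int.natCast_dvd_natCast.1 (show (r : ℤ) ∣ ((1 : ℕ) : ℤ) by exact_mod_cast h1)
      exact Nat.dvd_one.1 this
    · intro x
      obtain ⟨c, hc⟩ := hw x
      rw [hc, hw0]
      simp
  · obtain ⟨g, v, y0, hwv, hvy⟩ := exists_primitive w hw0
    have hT : ∀ x, ∃ d : ℤ, M.T x = x + d • v := by
      intro x
      obtain ⟨c, hc⟩ := hw x
      exact ⟨c * g, by rw [hc, hwv, smul_smul]⟩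
    choose d hd using hT
    have hsym : ∀ x y, d x * E v y = d y * E v x := by
      intro x y
      have h := M.symp x y
      rw [hd x, hd y, E_add_left, E_add_right, E_add_right, E_smul_left, E_smul_left,
        E_smul_right, E_smul_right, E_self, E_anti x v] at h
      linarith
    have hform : ∀ x, M.T x = x + (d y0 * E v x) • v := by
      intro x
      have := hsym x y0
      rw [hvy, mul_one] at this
      rw [hd x, this]
    have hv0 : v ≠ 0 := by
      rintro rfl
      simp [E] at hvy
    have hn := M.pos (d y0) v hv0 hform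
    obtain ⟨n, hn'⟩ := Int.eq_ofNat_of_zero_le hn
    refine ⟨n, v, ?_, ?_⟩
    · intro r w' hr
      have h1 : (r : ℤ) ∣ 1 := by
        refine ⟨E w' y0, ?_⟩
        rw [← E_smul_left, natCast_zsmul, ← hr, hvy]
      have := Int.natCast_dvd_natCast.1 (show (r : ℤ) ∣ ((1 : ℕ) : ℤ) by exact_mod_cast h1)
      exact Nat.dvd_one.1 this
    · intro x
      rw [hform x, hn']

/-- a basis of the orthogonal complement of two vectors -/
theorem exists_plane (a b : V4) (hab : E a b ≠ 0) :
    ∃ c d : V4, E a c = 0 ∧ E b c = 0 ∧ E a d = 0 ∧ E b d = 0 ∧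
      (∀ x, E a x = 0 → E b x = 0 → ∃ s t : ℤ, x = s • c + t • d) ∧ E c d ≠ 0 := by
  let φ : V4 →ₗ[ℤ] (Fin 2 → ℤ) :=
    { toFun := fun x => ![E a x, E b x]
      map_add' := fun x y => by
        funext i
        fin_cases i
        · simp [E_add_right]
        · simp [E_add_right]
      map_smul' := fun k x => by
        rw [E_smul_right, E_smul_right]
        funext i
        fin_cases i <;> rfl }
  have hφ : ∀ x, φ x = ![E a x, E b x] := fun _ => rfl
  have hker : ∀ x, x ∈ LinearMap.ker φ ↔ E a x = 0 ∧ E b x = 0 := by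
    intro x
    rw [LinearMap.mem_ker, hφ]
    constructor
    · intro h
      exact ⟨by simpa using congrFun h 0, by simpa using congrFun h 1⟩
    · rintro ⟨h1, h2⟩
      rw [h1, h2]
      funext i
      fin_cases i <;> rfl
  have hrn := Submodule.finrank_quotient_add_finrank (LinearMap.ker φ)
  rw [φ.quotKerEquivRange.finrank_eq] at hrn
  have h4 : Module.finrank ℤ V4 = 4 := by simp [V4]
  rw [h4] at hrn
  have hle : Module.finrank ℤ (LinearMap.range φ) ≤ 2 := by
    have := Submodule.finrank_le (LinearMap.range φ)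
    simpa using this
  have hge : 2 ≤ Module.finrank ℤ (LinearMap.range φ) := by
    let f : Fin 2 → LinearMap.range φ := ![⟨φ b, b, rfl⟩, ⟨φ a, a, rfl⟩]
    have hli : LinearIndependent ℤ f := by
      rw [LinearIndependent.pair_iff]
      intro s t hst
      have hst' : s • φ b + t • φ a = 0 := congrArg Subtype.val hst
      have h1 := congrFun hst' 0
      have h2 := congrFun hst' 1
      rw [hφ, hφ] at h1 h2
      simp only [Pi.add_apply, Pi.smul_apply, Matrix.cons_val_zero, Matrix.cons_val_one,
        smul_eq_mul, Pi.zero_apply, E_self, mul_zero, add_zero, zero_add] at h1 h2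
      refine ⟨(mul_eq_zero.1 h1).resolve_right hab, (mul_eq_zero.1 h2).resolve_right ?_⟩
      rw [E_anti]
      exact neg_ne_zero.2 hab
    have := hli.fintype_card_le_finrank
    simpa using this
  have h2 : Module.finrank ℤ (LinearMap.ker φ) = 2 := by omega
  let B := Module.finBasisOfFinrankEq ℤ (LinearMap.ker φ) h2
  have hc := (hker (B 0)).1 (B 0).2
  have hd := (hker (B 1)).1 (B 1).2
  have hspan : ∀ x, E a x = 0 → E b x = 0 →
      ∃ s t : ℤ, x = s • (B 0 : V4) + t • (B 1 : V4) := by
    intro x h1 h2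
    have := B.sum_repr ⟨x, (hker x).2 ⟨h1, h2⟩⟩
    rw [Fin.sum_univ_two] at this
    exact ⟨_, _, (congrArg Subtype.val this).symm⟩
  refine ⟨B 0, B 1, hc.1, hc.2, hd.1, hd.2, hspan, ?_⟩
  intro hcd
  have hz : (B 0 : V4) = 0 := by
    apply E_eq_zero
    intro x
    obtain ⟨s, t, hst⟩ := hspan (E a b • x + E b x • a - E a x • b)
      (by rw [E_sub_right, E_add_right, E_smul_right, E_smul_right, E_smul_right, E_self]; ring)
      (by rw [E_sub_right, E_add_right, E_smul_right, E_smul_right, E_smul_right, E_self,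
            E_anti b a]; ring)
    have h := congrArg (E (B 0 : V4)) hst
    rw [E_sub_right, E_add_right, E_smul_right, E_smul_right, E_smul_right, E_add_right,
      E_smul_right, E_smul_right, E_self, hcd, E_anti (B 0 : V4) a, E_anti (B 0 : V4) b, hc.1,
      hc.2] at h
    have h' : E a b * E (B 0 : V4) x = 0 := by linarith
    exact (mul_eq_zero.1 h').resolve_left hab
  have : B 0 = 0 := Subtype.ext hz
  exact B.ne_zero 0 this

section Trace

open Matrix

theorem ch2 (A : Matrix (Fin 2) (Fin 2) ℤ) (hdet : A.det = 1) :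
    A * A = A.trace • A - 1 := by
  rw [Matrix.det_fin_two] at hdet
  ext i j
  rw [Matrix.mul_apply, Fin.sum_univ_two, Matrix.sub_apply, Matrix.smul_apply, smul_eq_mul,
    Matrix.trace_fin_two]
  fin_cases i <;> fin_cases j
  · change A 0 0 * A 0 0 + A 0 1 * A 1 0 = (A 0 0 + A 1 1) * A 0 0 - 1
    linear_combination (-1 : ℤ) * hdet
  · change A 0 0 * A 0 1 + A 0 1 * A 1 1 = (A 0 0 + A 1 1) * A 0 1 - 0
    ring
  · change A 1 0 * A 0 0 + A 1 1 * A 1 0 = (A 0 0 + A 1 1) * A 1 0 - 0
    ring
  · change A 1 0 * A 0 1 + A 1 1 * A 1 1 = (A 0 0 + A 1 1) * A 1 1 - 1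
    linear_combination (-1 : ℤ) * hdet

theorem trace_eq_two (B : Matrix (Fin 2) (Fin 2) ℤ) (hdet : B.det = 1)
    (hB : ∀ z, B *ᵥ (B *ᵥ z) = (2 : ℕ) • (B *ᵥ z) - z) : B.trace = 2 := by
  have h1 : B * B = (2 : ℤ) • B - 1 := by
    refine Matrix.ext_of_mulVec_single fun i => ?_
    rw [← Matrix.mulVec_mulVec, hB, Matrix.sub_mulVec, Matrix.one_mulVec, Matrix.smul_mulVec]
    congr 1
  have h2 := ch2 B hdet
  rw [h1] at h2
  have h3 : (B.trace - 2) • B = 0 := by
    rw [sub_smul]
    have := sub_left_injective (b := (1 : Matrix (Fin 2) (Fin 2) ℤ)) h2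
    rw [← this, sub_self]
  by_contra hne
  have hne' : B.trace - 2 ≠ 0 := sub_ne_zero.2 hne
  have : B = 0 := by
    rcases smul_eq_zero.1 h3 with h | h
    · exact absurd h hne'
    · exact h
  rw [this] at hdet
  simp at hdet

theorem trace_growth (A : Matrix (Fin 2) (Fin 2) ℤ) (hdet : A.det = 1) (h3 : 3 ≤ |A.trace|)
    (n : ℕ) : 2 ≤ |(A ^ n).trace| ∧ |(A ^ n).trace| < |(A ^ (n + 1)).trace| := by
  induction n with
  | zero =>
    rw [pow_zero, zero_add, pow_one]
    constructor
    · simp
    · simp only [Matrix.trace_one, Fintype.card_fin]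
      norm_num
      linarith
  | succ n ih =>
    have hrec : A ^ (n + 1 + 1) = A.trace • A ^ (n + 1) - A ^ n := by
      have h := ch2 A hdet
      calc A ^ (n + 1 + 1) = (A * A) * A ^ n := by
            rw [pow_succ' A (n + 1), pow_succ' A n, mul_assoc]
        _ = (A.trace • A - 1) * A ^ n := by rw [h]
        _ = A.trace • A ^ (n + 1) - A ^ n := by
            rw [sub_mul, one_mul, smul_mul_assoc, ← pow_succ']
    have htr : (A ^ (n + 1 + 1)).trace = A.trace * (A ^ (n + 1)).trace - (A ^ n).trace := by
      rw [hrec, Matrix.trace_sub, Matrix.trace_smul, smul_eq_mul]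
    refine ⟨ih.1.trans ih.2.le, ?_⟩
    rw [htr]
    have h1 : |A.trace * (A ^ (n + 1)).trace| - |(A ^ n).trace|
        ≤ |A.trace * (A ^ (n + 1)).trace - (A ^ n).trace| := abs_sub_abs_le_abs_sub _ _
    rw [abs_mul] at h1
    have h2 : 3 * |(A ^ (n + 1)).trace| ≤ |A.trace| * |(A ^ (n + 1)).trace| :=
      mul_le_mul_of_nonneg_right h3 (abs_nonneg _)
    have h4 := ih.1
    have h5 := ih.2
    linarith

end Trace

theorem exists_kernel_gen (β1 β2 : ℤ) (h : β1 ≠ 0 ∨ β2 ≠ 0) :
    ∃ v0 : Fin 2 → ℤ, ∀ z : Fin 2 → ℤ, β1 * z 0 + β2 * z 1 = 0 → ∃ k : ℤ, z = k • v0 := by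
  obtain ⟨g, hg⟩ := (IsPrincipalIdealRing.principal (R := ℤ) (Ideal.span {β1, β2})).principal
  have hg' : Ideal.span {β1, β2} = Ideal.span {g} := hg
  have h1 : β1 ∈ Ideal.span {g} := by
    rw [← hg']; exact Ideal.subset_span (by simp)
  have h2 : β2 ∈ Ideal.span {g} := by
    rw [← hg']; exact Ideal.subset_span (by simp)
  have h3 : g ∈ Ideal.span {β1, β2} := by
    rw [hg']; exact Ideal.mem_span_singleton_self g
  obtain ⟨b1, hb1⟩ := Ideal.mem_span_singleton.1 h1
  obtain ⟨b2, hb2⟩ := Ideal.mem_span_singleton.1 h2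
  obtain ⟨u, v, huv⟩ := Ideal.mem_span_pair.1 h3
  have hg0 : g ≠ 0 := by
    rintro rfl
    rw [zero_mul] at hb1 hb2
    rcases h with h | h
    · exact h hb1
    · exact h hb2
  have hone : u * b1 + v * b2 = 1 := by
    apply mul_left_cancel₀ hg0
    rw [hb1, hb2] at huv
    linear_combination huv
  refine ⟨![b2, -b1], fun z hz => ⟨v * z 0 - u * z 1, ?_⟩⟩
  have hz' : b1 * z 0 + b2 * z 1 = 0 := by
    apply mul_left_cancel₀ hg0
    rw [hb1, hb2] at hz
    linear_combination hz
  funext i
  fin_cases i
  · change z 0 = (v * z 0 - u * z 1) * b2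
    linear_combination (- z 0) * hone + u * hz'
  · change z 1 = (v * z 0 - u * z 1) * (-b1)
    linear_combination (- z 1) * hone + v * hz'

theorem dvd_of_forall_E (p : ℤ) (w : V4) (h : ∀ x, p ∣ E x w) : ∃ w' : V4, w = p • w' := by
  have h0 := h ![0, 1, 0, 0]
  have h1 := h ![1, 0, 0, 0]
  have h2 := h ![0, 0, 0, 1]
  have h3 := h ![0, 0, 1, 0]
  simp [E] at h0 h1 h2 h3
  obtain ⟨v0, h0⟩ := h0
  obtain ⟨v1, h1⟩ := h1
  obtain ⟨v2, h2⟩ := h2
  obtain ⟨v3, h3⟩ := h3
  refine ⟨![v0, v1, v2, v3], ?_⟩
  funext i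
  fin_cases i
  · simpa using h0
  · simpa using h1
  · simpa using h2
  · simpa using h3

open Matrix in
theorem Mono.classify (M : Mono) :
    (∃ n : ℕ, M.IsUnip n) ∨ (∃ m, (m = 3 ∨ m = 4 ∨ m = 6) ∧ M.IsFin m) ∨ M.IsNeg := by
  rcases M.delta with h | ⟨a, b, ha, hb, hab⟩
  · exact Or.inl (M.unip_of_line h)
  obtain ⟨c, d, hac, hbc, had, hbd, hspan, hD⟩ := exists_plane a b hab
  have hTa : ∀ x, E a (M.T x) = E a x := fun x => by
    have := M.symp a x
    rwa [ha] at this
  have hTb : ∀ x, E b (M.T x) = E b x := fun x => by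
    have := M.symp b x
    rwa [hb] at this
  obtain ⟨p, r, hTc⟩ := hspan (M.T c) (by rw [hTa, hac]) (by rw [hTb, hbc])
  obtain ⟨q, s, hTd⟩ := hspan (M.T d) (by rw [hTa, had]) (by rw [hTb, hbd])
  obtain ⟨A, hA⟩ : ∃ A : Matrix (Fin 2) (Fin 2) ℤ, A = !![p, q; r, s] := ⟨_, rfl⟩
  obtain ⟨ψ, hψd⟩ : ∃ ψ : (Fin 2 → ℤ) → V4, ∀ z, ψ z = z 0 • c + z 1 • d := ⟨_, fun _ => rfl⟩
  have hψadd : ∀ z z', ψ (z + z') = ψ z + ψ z' := fun z z' => by
    rw [hψd, hψd, hψd, Pi.add_apply, Pi.add_apply, add_smul, add_smul]; abel
  have hψsub : ∀ z z', ψ (z - z') = ψ z - ψ z' := fun z z' => by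
    rw [hψd, hψd, hψd, Pi.sub_apply, Pi.sub_apply, sub_smul, sub_smul]; abel
  have hψsmul : ∀ (k : ℤ) z, ψ (k • z) = k • ψ z := fun k z => by
    rw [hψd, hψd, Pi.smul_apply, Pi.smul_apply, smul_add, smul_smul, smul_smul, smul_eq_mul,
      smul_eq_mul]
  have hψE0 : ∀ z, E (ψ z) d = z 0 * E c d := fun z => by
    rw [hψd, E_add_left, E_smul_left, E_smul_left, E_self]; ring
  have hψE1 : ∀ z, E c (ψ z) = z 1 * E c d := fun z => by
    rw [hψd, E_add_right, E_smul_right, E_smul_right, E_self]; ring
  have hψinj : ∀ z z', ψ z = ψ z' → z = z' := by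
    intro z z' h
    have h0 := hψE0 z
    have h1 := hψE1 z
    rw [h, hψE0] at h0
    rw [h, hψE1] at h1
    funext i
    fin_cases i
    · exact (mul_right_cancel₀ hD h0).symm
    · exact (mul_right_cancel₀ hD h1).symm
  have hψ : ∀ z, M.T (ψ z) = ψ (A *ᵥ z) := by
    intro z
    rw [hψd, hψd, map_add, map_zsmul, map_zsmul, hTc, hTd, hA]
    simp only [Matrix.mulVec, dotProduct, Fin.sum_univ_two, Matrix.of_apply, Matrix.cons_val',
      Matrix.cons_val_zero, Matrix.cons_val_one, Matrix.cons_val_fin_one]
    module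
  have hdet : A.det = 1 := by
    have h := M.symp c d
    rw [hTc, hTd, E_add_left, E_add_right, E_add_right, E_smul_left, E_smul_left, E_smul_left,
      E_smul_left, E_smul_right, E_smul_right, E_smul_right, E_smul_right, E_self, E_self,
      E_anti d c] at h
    have h' : (p * s - q * r) * E c d = 1 * E c d := by linarith
    rw [hA, Matrix.det_fin_two_of]
    exact mul_right_cancel₀ hD h'
  have hit : ∀ N z, M.T^[N] (ψ z) = ψ ((A ^ N) *ᵥ z) := by
    intro N
    induction N with
    | zero => intro z; rw [pow_zero, Matrix.one_mulVec]; rfl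
    | succ N ih =>
      intro z
      rw [Function.iterate_succ_apply', ih, hψ, Matrix.mulVec_mulVec, ← pow_succ']
  have htr : |A.trace| ≤ 2 := by
    by_contra hcon
    push Not at hcon
    obtain ⟨N, hN, hq⟩ := M.quasi
    have h2 : (A ^ N).trace = 2 := by
      apply trace_eq_two _ (by rw [Matrix.det_pow, hdet, one_pow])
      intro z
      have h := hq (ψ z)
      rw [hit, hit, ← natCast_zsmul, ← hψsmul, ← hψsub] at h
      have := hψinj _ _ h
      rw [this, natCast_zsmul]
    obtain ⟨n, rfl⟩ : ∃ n, N = n + 1 := ⟨N - 1, by omega⟩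
    have h3 := trace_growth A hdet hcon n
    rw [h2] at h3
    have h4 : |(2 : ℤ)| = 2 := rfl
    rw [h4] at h3
    omega
  have hch : ∀ z, M.T (M.T (ψ z)) = A.trace • M.T (ψ z) - ψ z := by
    intro z
    rw [hψ, hψ, Matrix.mulVec_mulVec, ch2 A hdet, Matrix.sub_mulVec, Matrix.one_mulVec,
      Matrix.smul_mulVec, hψsub, hψsmul]
  have hW : ∀ x, E a x = 0 → E b x = 0 → ∃ z, x = ψ z := by
    intro x h1 h2
    obtain ⟨s', t', h⟩ := hspan x h1 h2
    exact ⟨![s', t'], by rw [hψd]; exact h⟩
  have hψa : ∀ z, E a (ψ z) = 0 := fun z => by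
    rw [hψd, E_add_right, E_smul_right, E_smul_right, hac, had]; ring
  have hψb : ∀ z, E b (ψ z) = 0 := fun z => by
    rw [hψd, E_add_right, E_smul_right, E_smul_right, hbc, hbd]; ring
  have hdec : ∀ x, ∃ z, E a b • x + E b x • a - E a x • b = ψ z := fun x =>
    hW _ (by rw [E_sub_right, E_add_right, E_smul_right, E_smul_right, E_smul_right, E_self]; ring)
      (by rw [E_sub_right, E_add_right, E_smul_right, E_smul_right, E_smul_right, E_self,
            E_anti b a]; ring)
  have hcancel : ∀ x y : V4, E a b • x = E a b • y → x = y := fun x y h =>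
    smul_right_injective V4 hab h
  -- the action on `δ x`
  have hδ : ∀ x z, E a b • x + E b x • a - E a x • b = ψ z →
      E a b • (M.T x - x) = M.T (ψ z) - ψ z := by
    intro x z h
    rw [← h, map_sub, map_add, map_zsmul, map_zsmul, map_zsmul, ha, hb, smul_sub]
    abel
  have hτ : A.trace = -2 ∨ A.trace = 2 ∨ A.trace = 1 ∨ A.trace = 0 ∨ A.trace = -1 := by
    have := abs_le.1 htr
    omega
  rcases hτ with hτ | hτ | hτ
  · -- the case - unipotent
    refine Or.inr (Or.inr ⟨a, b, ha, hb, hab, fun x h1 h2 => ?_⟩)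
    obtain ⟨z, rfl⟩ := hW x h1 h2
    rw [hch, hτ, ← natCast_zsmul]
    push_cast
    module
  · -- unipotent
    refine Or.inl (M.unip_of_line ?_)
    by_cases hB : A = 1
    · refine ⟨0, fun x => ⟨0, ?_⟩⟩
      obtain ⟨z, hz⟩ := hdec x
      have h := hδ x z hz
      rw [hψ, hB, Matrix.one_mulVec, sub_self] at h
      have h0 : M.T x - x = 0 := by
        apply hcancel
        rw [h, smul_zero]
      rw [smul_zero, add_zero]
      exact sub_eq_zero.1 h0
    · -- a non zero row of `A - 1`
      have hrow : ∃ i : Fin 2, (A - 1) i 0 ≠ 0 ∨ (A - 1) i 1 ≠ 0 := by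
        by_contra hcon
        push Not at hcon
        apply hB
        have : A - 1 = 0 := by
          ext i j
          fin_cases j
          · exact (hcon i).1
          · exact (hcon i).2
        exact sub_eq_zero.1 this
      obtain ⟨i, hi⟩ := hrow
      obtain ⟨v0, hv0⟩ := exists_kernel_gen _ _ hi
      refine ⟨ψ v0, fun x => ?_⟩
      obtain ⟨z, hz⟩ := hdec x
      have h := hδ x z hz
      obtain ⟨y, hy⟩ := hW (M.T x - x) (by rw [E_sub_right, hTa, sub_self])
        (by rw [E_sub_right, hTb, sub_self])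
      have hTy : M.T (ψ y) = ψ y := by
        apply hcancel
        rw [← hy, ← map_zsmul, h, map_sub, hch, hτ]
        module
      rw [hψ] at hTy
      have hy2 := hψinj _ _ hTy
      have hker : (A - 1) *ᵥ y = 0 := by
        rw [Matrix.sub_mulVec, Matrix.one_mulVec, hy2, sub_self]
      have hi2 := congrFun hker i
      simp only [Matrix.mulVec, dotProduct, Fin.sum_univ_two, Pi.zero_apply] at hi2
      obtain ⟨k, hk⟩ := hv0 y hi2
      refine ⟨k, ?_⟩
      rw [← hψsmul, ← hk, ← hy]
      abel
  · -- finite order on a unimodular plane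
    have h2τ : (A - 1).det = 2 - A.trace := by
      rw [Matrix.det_fin_two] at hdet ⊢
      rw [Matrix.trace_fin_two]
      change (A 0 0 - 1) * (A 1 1 - 1) - (A 0 1 - 0) * (A 1 0 - 0) = _
      linear_combination hdet
    have hunit : E c d = 1 ∨ E c d = -1 := by
      by_contra hcon
      push Not at hcon
      have hna : (E c d).natAbs ≠ 1 := by
        intro h
        rcases Int.natAbs_eq (E c d) with h' | h' <;> rw [h] at h'
        · exact hcon.1 (by simpa using h')
        · exact hcon.2 (by simpa using h')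
      obtain ⟨P, hP, hPD⟩ := Int.exists_prime_and_dvd hna
      have hdiv : ∀ z, ∃ z', (A - 1) *ᵥ z = P • z' := by
        intro z
        have h1 : ∀ x, P ∣ E x (M.T (ψ z) - ψ z) := by
          intro x
          have hs : E x (M.T (ψ z)) = E (M.T.symm x) (ψ z) := by
            have := M.symp (M.T.symm x) (ψ z)
            rwa [AddEquiv.apply_symm_apply] at this
          rw [E_sub_right, hs, ← E_sub_left]
          obtain ⟨z', hz'⟩ := hW (M.T.symm x - x)
            (by rw [E_sub_right, ← hTa (M.T.symm x), AddEquiv.apply_symm_apply, sub_self])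
            (by rw [E_sub_right, ← hTb (M.T.symm x), AddEquiv.apply_symm_apply, sub_self])
          rw [hz', hψd z', E_add_left, E_smul_left, E_smul_left, hψE1, E_anti d, hψE0]
          obtain ⟨k, hk⟩ := hPD
          rw [hk]
          exact ⟨z' 0 * (z 1 * k) - z' 1 * (z 0 * k), by ring⟩
        obtain ⟨w', hw'⟩ := dvd_of_forall_E P _ h1
        have hP0 : P ≠ 0 := hP.ne_zero
        obtain ⟨z'', hz''⟩ := hW w'
          (by
            have : P * E a w' = 0 := by
              rw [← E_smul_right, ← hw', E_sub_right, hTa, sub_self]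
            exact (mul_eq_zero.1 this).resolve_left hP0)
          (by
            have : P * E b w' = 0 := by
              rw [← E_smul_right, ← hw', E_sub_right, hTb, sub_self]
            exact (mul_eq_zero.1 this).resolve_left hP0)
        refine ⟨z'', hψinj _ _ ?_⟩
        rw [hψsmul, ← hz'', ← hw', hψ, ← hψsub, Matrix.sub_mulVec, Matrix.one_mulVec]
      obtain ⟨z0, h0⟩ := hdiv ![1, 0]
      obtain ⟨z1, h1⟩ := hdiv ![0, 1]
      have e00 := congrFun h0 0
      have e10 := congrFun h0 1
      have e01 := congrFun h1 0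
      have e11 := congrFun h1 1
      simp only [Matrix.mulVec, dotProduct, Fin.sum_univ_two, Matrix.cons_val_zero,
        Matrix.cons_val_one, Matrix.cons_val_fin_one, mul_one, mul_zero, add_zero, zero_add,
        Pi.smul_apply, smul_eq_mul] at e00 e10 e01 e11
      have hPP : P * P ∣ (A - 1).det := by
        rw [Matrix.det_fin_two, e00, e10, e01, e11]
        exact ⟨z0 0 * z1 1 - z1 0 * z0 1, by ring⟩
      rw [h2τ] at hPP
      have hle : P * P ≤ 2 - A.trace := Int.le_of_dvd (by omega) hPP
      have hP2 : 2 ≤ P.natAbs := by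
        have := (Int.prime_iff_natAbs_prime.1 hP).two_le
        exact this
      have h4 : 4 ≤ P * P := by
        have h5 : ((P.natAbs : ℤ)) * P.natAbs = P * P := Int.natAbs_mul_self' P
        have h6 : (2 : ℤ) ≤ P.natAbs := by exact_mod_cast hP2
        nlinarith
      omega
    have hfix : ∀ x, E c x = 0 → E d x = 0 → M.T x = x := by
      intro x h1 h2
      obtain ⟨z, hz⟩ := hdec x
      have hz1 : z 1 = 0 := by
        have h := hψE1 z
        rw [← hz, E_sub_right, E_add_right, E_smul_right, E_smul_right, E_smul_right, h1,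
          E_anti c a, E_anti c b, hac, hbc] at h
        have h' : z 1 * E c d = 0 := by linarith
        exact (mul_eq_zero.1 h').resolve_right hD
      have hz0 : z 0 = 0 := by
        have h := hψE0 z
        rw [E_anti, ← hz, E_sub_right, E_add_right, E_smul_right, E_smul_right, E_smul_right, h2,
          E_anti d a, E_anti d b, had, hbd] at h
        have h' : z 0 * E c d = 0 := by linarith
        exact (mul_eq_zero.1 h').resolve_right hD
      have h := hδ x z hz
      have hz' : ψ z = 0 := by rw [hψd, hz0, hz1, zero_smul, zero_smul, add_zero]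
      rw [hz', map_zero, sub_zero] at h
      have h0 : M.T x - x = 0 := by
        apply hcancel
        rw [h, smul_zero]
      exact sub_eq_zero.1 h0
    have hTm : ∀ m : ℕ, (∀ z, M.T^[m] (ψ z) = ψ z) → ∀ x, M.T^[m] x = x := by
      intro m hm x
      obtain ⟨z, hz⟩ := hdec x
      have h := hm z
      have hfa : M.T^[m] a = a := Function.iterate_fixed ha m
      have hfb : M.T^[m] b = b := Function.iterate_fixed hb m
      rw [← hz, iterate_map_sub, iterate_map_add, iterate_map_zsmul, iterate_map_zsmul,
        iterate_map_zsmul, hfa, hfb] at h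
      apply hcancel
      have h' := sub_left_injective h
      exact add_left_injective _ h'
    have hne : c ≠ 0 ∧ d ≠ 0 := by
      constructor
      · rintro rfl
        exact hD (by simp [E])
      · rintro rfl
        exact hD (by simp [E])
    -- a vector of the plane is not fixed by a smaller power
    have key : ∃ m, (m = 3 ∨ m = 4 ∨ m = 6) ∧ (∀ z, M.T^[m] (ψ z) = ψ z) ∧
        ∀ j, 0 < j → j < m → ∀ z, M.T^[j] (ψ z) = ψ z → ψ z = 0 := by
      rcases hτ with hτ | hτ | hτ
      · refine ⟨6, Or.inr (Or.inr rfl), ?_, ?_⟩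
        · intro z
          have e2 : M.T (M.T (ψ z)) = M.T (ψ z) - ψ z := by rw [hch, hτ, one_smul]
          have e3 : M.T (M.T (M.T (ψ z))) = - ψ z := by
            rw [e2, map_sub, e2]; abel
          simp only [Function.iterate_succ_apply', Function.iterate_zero, id_eq]
          rw [e3, map_neg, map_neg, map_neg, e3, neg_neg]
        · intro j hj0 hj z hjz
          have e2 : M.T (M.T (ψ z)) = M.T (ψ z) - ψ z := by rw [hch, hτ, one_smul]
          have e3 : M.T (M.T (M.T (ψ z))) = - ψ z := by
            rw [e2, map_sub, e2]; abel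
          have hs := congrArg M.T hjz
          funext i
          interval_cases j <;>
            simp only [Function.iterate_succ_apply', Function.iterate_zero, id_eq] at hjz hs
          · rw [e2] at hs
            have h1 := congrFun hs i
            have h2 := congrFun hjz i
            simp only [Pi.sub_apply, Pi.zero_apply] at h1 h2 ⊢
            omega
          · rw [e3] at hs
            rw [e2] at hjz
            have h1 := congrFun hs i
            have h2 := congrFun hjz i
            simp only [Pi.sub_apply, Pi.neg_apply, Pi.zero_apply] at h1 h2 ⊢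
            omega
          · rw [e3] at hjz
            have h2 := congrFun hjz i
            simp only [Pi.neg_apply, Pi.zero_apply] at h2 ⊢
            omega
          · rw [e3, map_neg] at hjz
            rw [e3, map_neg, map_neg, e2] at hs
            have h1 := congrFun hs i
            have h2 := congrFun hjz i
            simp only [Pi.sub_apply, Pi.neg_apply, Pi.zero_apply] at h1 h2 ⊢
            omega
          · rw [e3, map_neg, map_neg, e2] at hjz
            rw [e3, map_neg, map_neg, map_neg, e3, neg_neg] at hs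
            have h1 := congrFun hs i
            have h2 := congrFun hjz i
            simp only [Pi.sub_apply, Pi.neg_apply, Pi.zero_apply] at h1 h2 ⊢
            omega
      · refine ⟨4, Or.inr (Or.inl rfl), ?_, ?_⟩
        · intro z
          have e2 : M.T (M.T (ψ z)) = - ψ z := by rw [hch, hτ, zero_smul, zero_sub]
          simp only [Function.iterate_succ_apply', Function.iterate_zero, id_eq]
          rw [e2, map_neg, map_neg, e2, neg_neg]
        · intro j hj0 hj z hjz
          have e2 : M.T (M.T (ψ z)) = - ψ z := by rw [hch, hτ, zero_smul, zero_sub]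
          have hs := congrArg M.T hjz
          funext i
          interval_cases j <;>
            simp only [Function.iterate_succ_apply', Function.iterate_zero, id_eq] at hjz hs
          · rw [e2] at hs
            have h1 := congrFun hs i
            have h2 := congrFun hjz i
            simp only [Pi.neg_apply, Pi.zero_apply] at h1 h2 ⊢
            omega
          · rw [e2] at hjz
            have h2 := congrFun hjz i
            simp only [Pi.neg_apply, Pi.zero_apply] at h2 ⊢
            omega
          · rw [e2, map_neg] at hjz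
            rw [e2, map_neg, map_neg, e2, neg_neg] at hs
            have h1 := congrFun hs i
            have h2 := congrFun hjz i
            simp only [Pi.neg_apply, Pi.zero_apply] at h1 h2 ⊢
            omega
      · refine ⟨3, Or.inl rfl, ?_, ?_⟩
        · intro z
          have e2 : M.T (M.T (ψ z)) = - M.T (ψ z) - ψ z := by rw [hch, hτ, neg_smul, one_smul]
          simp only [Function.iterate_succ_apply', Function.iterate_zero, id_eq]
          rw [e2, map_sub, map_neg, e2]
          abel
        · intro j hj0 hj z hjz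
          have e2 : M.T (M.T (ψ z)) = - M.T (ψ z) - ψ z := by rw [hch, hτ, neg_smul, one_smul]
          have e3 : M.T (M.T (M.T (ψ z))) = ψ z := by
            rw [e2, map_sub, map_neg, e2]; abel
          have hs := congrArg M.T hjz
          funext i
          interval_cases j <;>
            simp only [Function.iterate_succ_apply', Function.iterate_zero, id_eq] at hjz hs
          · rw [e2] at hs
            have h1 := congrFun hs i
            have h2 := congrFun hjz i
            simp only [Pi.sub_apply, Pi.neg_apply, Pi.zero_apply] at h1 h2 ⊢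
            omega
          · rw [e3] at hs
            rw [e2] at hjz
            have h1 := congrFun hs i
            have h2 := congrFun hjz i
            simp only [Pi.sub_apply, Pi.neg_apply, Pi.zero_apply] at h1 h2 ⊢
            omega
    obtain ⟨m, hm, hper, hmin⟩ := key
    have hψc : ψ ![1, 0] = c := by rw [hψd]; simp
    have hψd' : ψ ![0, 1] = d := by rw [hψd]; simp
    refine Or.inr (Or.inl ⟨m, hm, ?_⟩)
    rcases hunit with h1 | h1
    · refine ⟨c, d, h1, hfix, hTm m hper, fun j hj0 hj hc => hne.1 ?_⟩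
      rw [← hψc]
      exact hmin j hj0 hj _ (by rw [hψc]; exact hc)
    · refine ⟨d, c, by rw [E_anti, h1, neg_neg], fun x h2 h3 => hfix x h3 h2, hTm m hper,
        fun j hj0 hj hc => hne.2 ?_⟩
      rw [← hψd']
      exact hmin j hj0 hj _ (by rw [hψd']; exact hc)

end Pool.Agent.H29.KT
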