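import Mathlib

/-!
# Lattices which are stable under the transvections of vanishing vectors

`H'` is a free abelian group of rank four with a unimodular alternating form `E`, `v i` are
the vanishing vectors: they generate `H'` and they are conjugate up to sign under the monodromy
group `G`, which contains the transvections `x ↦ x + E(v i, x) v i`. A stable subgroup `H` such that
`H' / H` is generated by two elements and killed by some `t > 0` is equal to `H'`.
-/

namespace Pool.Agent.H11.KT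

/-- An element of an abelian group with `p x ∈ Λ`, `k x ∈ Λ` and `x ∉ Λ`, `p` prime: `p` divides
`k`. -/
theorem dvd_of_smul_mem {A : Type*} [AddCommGroup A] (Λ : AddSubgroup A) {p : ℕ} (hp : p.Prime)
    {x : A} (hx : x ∉ Λ) (hpx : (p : ℤ) • x ∈ Λ) {k : ℤ} (hk : k • x ∈ Λ) : (p : ℤ) ∣ k := by
  by_contra hnd
  have hcop : IsCoprime (p : ℤ) k :=
    (Prime.coprime_iff_not_dvd (Nat.prime_iff_prime_int.mp hp)).mpr hnd
  obtain ⟨a, b, hab⟩ := hcop
  apply hx
  have h : x = a • ((p : ℤ) • x) + b • (k • x) := by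
    rw [smul_smul, smul_smul, ← add_smul, hab, one_smul]
  rw [h]
  exact Λ.add_mem (Λ.zsmul_mem hpx a) (Λ.zsmul_mem hk b)

/-- Stable subgroups modulo a prime: `H + p H' = H'` or `H ⊆ p H'`. -/
theorem stable_mod {A : Type*} [AddCommGroup A] (E : A → A → ℤ)
    (E_add : ∀ x y z, E (x + y) z = E x z + E y z) (E_neg : ∀ x z, E (-x) z = -E x z)
    {p : ℕ} (hp : p.Prime) (unimod : ∀ y, (∀ x, (p : ℤ) ∣ E x y) → ∃ z, y = (p : ℤ) • z)
    {ι : Type*} (v : ι → A) (gen : AddSubgroup.closure (Set.range v) = ⊤)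
    (H : AddSubgroup A) (G : Set (A →+ A))
    (trans : ∀ i, ∀ x ∈ H, E (v i) x • v i ∈ H)
    (stable : ∀ g ∈ G, ∀ x ∈ H, g x ∈ H)
    (conj : ∀ i j, ∃ g ∈ G, g (v i) = v j ∨ g (v i) = -v j) :
    (∀ x, ∃ y ∈ H, ∃ z, x = y + (p : ℤ) • z) ∨ ∀ y ∈ H, ∃ z, y = (p : ℤ) • z := by
  classical
  -- the subgroup `Λ = H + p A`
  let Λ : AddSubgroup A := H ⊔ (AddMonoidHom.range (zsmulAddGroupHom (p : ℤ) : A →+ A))
  have hΛ : ∀ x, x ∈ Λ ↔ ∃ y ∈ H, ∃ z, x = y + (p : ℤ) • z := by
    intro x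
    constructor
    · intro hx
      obtain ⟨y, hy, w, ⟨z, hz⟩, hw⟩ := AddSubgroup.mem_sup.mp hx
      refine ⟨y, hy, z, ?_⟩
      rw [← hw, ← hz]
      rfl
    · rintro ⟨y, hy, z, rfl⟩
      exact AddSubgroup.mem_sup.mpr ⟨y, hy, (p : ℤ) • z, ⟨z, rfl⟩, rfl⟩
  have hpΛ : ∀ x, (p : ℤ) • x ∈ Λ := fun x =>
    (hΛ _).mpr ⟨0, H.zero_mem, x, by rw [zero_add]⟩
  have hHΛ : ∀ x ∈ H, x ∈ Λ := fun x hx => (hΛ x).mpr ⟨x, hx, 0, by rw [smul_zero, add_zero]⟩
  have hG : ∀ g ∈ G, ∀ x ∈ Λ, g x ∈ Λ := by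
    intro g hg x hx
    obtain ⟨y, hy, z, rfl⟩ := (hΛ x).mp hx
    rw [map_add, map_zsmul]
    exact Λ.add_mem (hHΛ _ (stable g hg y hy)) (hpΛ _)
  by_cases hex : ∃ i, v i ∈ Λ
  · left
    obtain ⟨i, hi⟩ := hex
    have hall : ∀ j, v j ∈ Λ := by
      intro j
      obtain ⟨g, hg, h | h⟩ := conj i j
      · rw [← h]; exact hG g hg _ hi
      · rw [show v j = -g (v i) by rw [h, neg_neg]]
        exact Λ.neg_mem (hG g hg _ hi)
    have htop : Λ = ⊤ := by
      rw [eq_top_iff, ← gen, AddSubgroup.closure_le]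
      rintro _ ⟨j, rfl⟩
      exact hall j
    intro x
    exact (hΛ x).mp (by rw [htop]; trivial)
  · right
    push Not at hex
    intro y hy
    refine unimod y fun x => ?_
    have hx : x ∈ AddSubgroup.closure (Set.range v) := by rw [gen]; trivial
    induction hx using AddSubgroup.closure_induction with
    | mem x hx =>
        obtain ⟨i, rfl⟩ := hx
        exact dvd_of_smul_mem Λ hp (hex i) (hpΛ _) (hHΛ _ (trans i y hy))
    | zero =>
        have h0 : E 0 y = 0 := by
          have := E_add 0 0 y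
          rw [add_zero] at this
          linarith
        rw [h0]
        exact dvd_zero _
    | add a b _ _ ha hb => rw [E_add]; exact dvd_add ha hb
    | neg a _ ha => rw [E_neg]; exact (dvd_neg).mpr ha

/-- The group `ℤ^n`, `n ≥ 3`, is not generated by two elements modulo a prime. -/
theorem not_two_generated {n : ℕ} (hn : 3 ≤ n) {p : ℕ} (hp : p.Prime) (a b : Fin n → ℤ)
    (h : ∀ x : Fin n → ℤ, ∃ (k l : ℤ) (z : Fin n → ℤ), x = k • a + l • b + (p : ℤ) • z) :
    False := by
  have : Fact p.Prime := ⟨hp⟩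
  let r : (Fin n → ℤ) → (Fin n → ZMod p) := fun x i => (x i : ZMod p)
  have hspan : Submodule.span (ZMod p) ({r a, r b} : Set (Fin n → ZMod p)) = ⊤ := by
    rw [eq_top_iff]
    intro y _
    obtain ⟨x, hx⟩ : ∃ x : Fin n → ℤ, r x = y := by
      refine ⟨fun i => ((y i).val : ℤ), ?_⟩
      funext i
      simp [r]
    obtain ⟨k, l, z, hz⟩ := h x
    rw [Submodule.mem_span_pair]
    refine ⟨(k : ZMod p), (l : ZMod p), ?_⟩
    rw [← hx, hz]
    funext i
    simp [r]
  have h1 : Module.finrank (ZMod p) (Fin n → ZMod p) ≤ 2 := by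
    have h2 := finrank_span_finset_le_card (R := ZMod p) ({r a, r b} : Finset (Fin n → ZMod p))
    have h3 : (Submodule.span (ZMod p)
        (({r a, r b} : Finset (Fin n → ZMod p)) : Set (Fin n → ZMod p))) = ⊤ := by
      rw [Finset.coe_insert, Finset.coe_singleton]
      exact hspan
    unfold Set.finrank at h2
    rw [h3, finrank_top] at h2
    exact h2.trans (Finset.card_le_two)
  rw [Module.finrank_fin_fun] at h1
  omega

/-- **The lattice is everything.** `A` is free of rank `n ≥ 3` (here `n = 4`), `E` is unimodular, the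
vanishing vectors `v i` generate `A` and are conjugate up to sign, `H` is stable under the monodromy
and `A / H` is generated by two elements and killed by `t > 0`. Then `H = A`. -/
theorem lattice_eq_top {n : ℕ} (hn : 3 ≤ n) (E : (Fin n → ℤ) → (Fin n → ℤ) → ℤ)
    (E_add : ∀ x y z, E (x + y) z = E x z + E y z) (E_neg : ∀ x z, E (-x) z = -E x z)
    (unimod : ∀ p : ℕ, p.Prime → ∀ y, (∀ x, (p : ℤ) ∣ E x y) → ∃ z, y = (p : ℤ) • z)
    {ι : Type*} (v : ι → Fin n → ℤ) (gen : AddSubgroup.closure (Set.range v) = ⊤)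
    (H : AddSubgroup (Fin n → ℤ)) (G : Set ((Fin n → ℤ) →+ (Fin n → ℤ)))
    (trans : ∀ i, ∀ x ∈ H, E (v i) x • v i ∈ H)
    (stable : ∀ g ∈ G, ∀ x ∈ H, g x ∈ H)
    (conj : ∀ i j, ∃ g ∈ G, g (v i) = v j ∨ g (v i) = -v j)
    {t : ℕ} (ht : 0 < t) (kill : ∀ x, (t : ℤ) • x ∈ H) (a b : Fin n → ℤ)
    (two : ∀ x : Fin n → ℤ, ∃ k l : ℤ, x - (k • a + l • b) ∈ H) : H = ⊤ := by
  -- for all primes `H + p A = A`
  have hp : ∀ p : ℕ, p.Prime → ∀ x, ∃ y ∈ H, ∃ z, x = y + (p : ℤ) • z := by
    intro p hp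
    rcases stable_mod E E_add E_neg hp (unimod p hp) v gen H G trans stable conj with h | h
    · exact h
    · exfalso
      refine not_two_generated hn hp a b fun x => ?_
      obtain ⟨k, l, hkl⟩ := two x
      obtain ⟨z, hz⟩ := h _ hkl
      exact ⟨k, l, z, by rw [← hz]; abel⟩
  -- so `H + m A = A` for all `m > 0`
  have hm : ∀ m : ℕ, 0 < m → ∀ x, ∃ y ∈ H, ∃ z, x = y + (m : ℤ) • z := by
    intro m
    induction m using Nat.strong_induction_on with
    | _ m ih =>
        intro hm0 x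
        rcases Nat.lt_or_ge 1 m with h1 | h1
        · obtain ⟨p, hpp, c, hc⟩ := Nat.exists_prime_and_dvd (by omega : m ≠ 1)
          have hc0 : 0 < c := by
            rcases Nat.eq_zero_or_pos c with h | h
            · rw [h, mul_zero] at hc; omega
            · exact h
          have hcm : c < m := by
            rw [hc]
            exact lt_mul_of_one_lt_left hc0 hpp.one_lt
          obtain ⟨y, hy, z, hz⟩ := ih c hcm hc0 x
          obtain ⟨y', hy', z', hz'⟩ := hp p hpp z
          refine ⟨y + (c : ℤ) • y', H.add_mem hy (H.zsmul_mem hy' _), z', ?_⟩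
          rw [hz, hz', smul_add, smul_smul, add_assoc, hc]
          congr 3
          push_cast
          ring
        · have : m = 1 := by omega
          subst this
          exact ⟨0, H.zero_mem, x, by simp⟩
  rw [eq_top_iff]
  intro x _
  obtain ⟨y, hy, z, hz⟩ := hm t ht x
  rw [hz]
  exact H.add_mem hy (kill z)

end Pool.Agent.H11.KT
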