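import Mathlib

/-!
# The parity of the form

`X` is a hyperkähler fourfold with `b_2 = 23`. With the rational multiple `Q` of the form of
Beauville and Bogomolov such that `∫ l^4 = 3 Q(l)^2` the Riemann-Roch theorem is
`8 χ(l) = (Q(l) + 4)(Q(l) + 6)`. So `Q` is even and integral.
-/

namespace Pool.Agent.H11.KT

/-- a rational number whose square is an integer is an integer -/
theorem int_of_sq {q : ℚ} {m : ℤ} (h : q ^ 2 = m) : ∃ k : ℤ, q = k := by
  have h1 : IsIntegral ℤ q := by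
    refine ⟨Polynomial.X ^ 2 - Polynomial.C m, Polynomial.monic_X_pow_sub_C m two_ne_zero, ?_⟩
    rw [Polynomial.eval₂_sub, Polynomial.eval₂_pow, Polynomial.eval₂_X, Polynomial.eval₂_C, h]
    simp
  obtain ⟨k, hk⟩ := IsIntegrallyClosed.isIntegral_iff.mp h1
  exact ⟨k, by rw [← hk]; simp⟩

/-- If `8 χ = (q + 4)(q + 6)` with `χ` an integer and `q` rational then `q` is an even integer. -/
theorem even_of_chi {q : ℚ} {c : ℤ} (h : 8 * (c : ℚ) = (q + 4) * (q + 6)) :
    ∃ k : ℤ, q = 2 * k := by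
  have h1 : (q + 5) ^ 2 = ((8 * c + 1 : ℤ) : ℚ) := by
    push_cast
    linear_combination -h
  obtain ⟨k, hk⟩ := int_of_sq h1
  have h2 : k ^ 2 = 8 * c + 1 := by
    rw [hk] at h1
    exact_mod_cast h1
  have h3 : k % 2 = 1 := by
    rcases Int.emod_two_eq_zero_or_one k with h | h
    · obtain ⟨j, hj⟩ := Int.dvd_of_emod_eq_zero h
      rw [hj] at h2
      ring_nf at h2
      omega
    · exact h
  refine ⟨k / 2 - 2, ?_⟩
  have h4 : k = 2 * (k / 2) + 1 := by omega
  have h5 : (k : ℚ) = 2 * ((k / 2 : ℤ) : ℚ) + 1 := by exact_mod_cast h4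
  push_cast
  linear_combination hk + h5

/-- The form `Q` is even and its bilinear form is integral. -/
theorem form_even {L : Type*} [AddCommGroup L] (Q : L → ℚ) (B : L → L → ℚ)
    (hQ : ∀ l m, Q (l + m) = Q l + Q m + 2 * B l m) (χ : L → ℤ)
    (rr : ∀ l, 8 * (χ l : ℚ) = (Q l + 4) * (Q l + 6)) :
    (∀ l, ∃ k : ℤ, Q l = 2 * k) ∧ ∀ l m, ∃ k : ℤ, B l m = k := by
  have h1 : ∀ l, ∃ k : ℤ, Q l = 2 * k := fun l => even_of_chi (rr l)
  refine ⟨h1, fun l m => ?_⟩
  obtain ⟨a, ha⟩ := h1 (l + m)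
  obtain ⟨b, hb⟩ := h1 l
  obtain ⟨c, hc⟩ := h1 m
  refine ⟨a - b - c, ?_⟩
  have h := hQ l m
  rw [ha, hb, hc] at h
  push_cast
  linear_combination -h / 2

/-- The Fujiki constant: `f = 3 a ^ 2` with `a = C / 30`, from `C ^ 2 = 300 f`. -/
theorem fujiki_eq {f C : ℚ} (h : C ^ 2 = 300 * f) : f = 3 * (C / 30) ^ 2 := by
  linear_combination -h / 300

end Pool.Agent.H11.KT
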