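import Pool.Agent.H29.KT.Defs

/-!
# Ranks of local monodromies: `rk (T - 1) ≤ 2`
-/

namespace Pool.Agent.H29.KT

theorem E_add_left (a a' b : V4) : E (a + a') b = E a b + E a' b := by
  simp only [E, Pi.add_apply]; ring

theorem E_add_right (a b b' : V4) : E a (b + b') = E a b + E a b' := by
  simp only [E, Pi.add_apply]; ring

theorem E_sub_left (a a' b : V4) : E (a - a') b = E a b - E a' b := by
  simp only [E, Pi.sub_apply]; ring

theorem E_sub_right (a b b' : V4) : E a (b - b') = E a b - E a b' := by
  simp only [E, Pi.sub_apply]; ring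

theorem E_smul_left (k : ℤ) (a b : V4) : E (k • a) b = k * E a b := by
  simp only [E, Pi.smul_apply, smul_eq_mul]; ring

theorem E_smul_right (k : ℤ) (a b : V4) : E a (k • b) = k * E a b := by
  simp only [E, Pi.smul_apply, smul_eq_mul]; ring

theorem E_self (a : V4) : E a a = 0 := by
  simp only [E]; ring

theorem E_anti (a b : V4) : E a b = - E b a := by
  simp only [E]; ring

theorem E_zero_right (a : V4) : E a 0 = 0 := by
  simp [E]

/-- `T - 1` as a linear map -/
def Mono.u (M : Mono) : V4 →ₗ[ℤ] V4 :=
  (M.T.toAddMonoidHom - AddMonoidHom.id V4).toIntLinearMap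

theorem Mono.u_apply (M : Mono) (x : V4) : M.u x = M.T x - x := rfl

theorem Mono.rk_eq (M : Mono) : M.rk = Module.finrank ℤ (LinearMap.range M.u) := by
  unfold Mono.rk
  have h : (M.T.toAddMonoidHom - AddMonoidHom.id V4).range
      = (LinearMap.range M.u).toAddSubgroup := by
    ext y
    simp only [AddMonoidHom.mem_range, Submodule.mem_toAddSubgroup, LinearMap.mem_range]
    rfl
  rw [h]
  rfl

theorem Mono.rk_le_one (M : Mono) (h : ∃ w, ∀ x, ∃ c : ℤ, M.T x = x + c • w) : M.rk ≤ 1 := by
  obtain ⟨w, hw⟩ := h
  rw [M.rk_eq]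
  have hle : LinearMap.range M.u ≤ Submodule.span ℤ {w} := by
    rintro y ⟨x, rfl⟩
    obtain ⟨c, hc⟩ := hw x
    rw [M.u_apply, hc, add_sub_cancel_left]
    exact Submodule.smul_mem _ _ (Submodule.mem_span_singleton_self w)
  refine (Submodule.finrank_mono hle).trans ?_
  have := finrank_span_le_card (R := ℤ) (M := V4) ({w} : Set V4)
  simpa using this

theorem Mono.rk_zero (M : Mono) (h : M.IsUnip 0) : M.rk = 0 := by
  obtain ⟨v, _, hv⟩ := h
  rw [M.rk_eq]
  have h0 : LinearMap.range M.u = ⊥ := by
    rw [LinearMap.range_eq_bot]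
    refine LinearMap.ext fun x => ?_
    have := hv x
    simp only [Nat.cast_zero, zero_mul, zero_smul, add_zero] at this
    rw [M.u_apply, this, sub_self]
    rfl
  rw [h0]
  exact finrank_bot ℤ V4

theorem Mono.rk_unip (M : Mono) {n : ℕ} (h : M.IsUnip n) : M.rk ≤ 1 := by
  obtain ⟨v, _, hv⟩ := h
  exact M.rk_le_one ⟨v, fun x => ⟨_, hv x⟩⟩

theorem Mono.rk_le_two (M : Mono) : M.rk ≤ 2 := by
  rcases M.delta with h | ⟨a, b, ha, hb, hab⟩
  · exact (M.rk_le_one h).trans (by norm_num)
  · rw [M.rk_eq]
    have hrn := Submodule.finrank_quotient_add_finrank (LinearMap.ker M.u)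
    rw [M.u.quotKerEquivRange.finrank_eq] at hrn
    have h4 : Module.finrank ℤ V4 = 4 := by
      simp [V4]
    rw [h4] at hrn
    have hker : 2 ≤ Module.finrank ℤ (LinearMap.ker M.u) := by
      let f : Fin 2 → LinearMap.ker M.u := ![⟨a, by
        rw [LinearMap.mem_ker, M.u_apply, ha, sub_self]⟩, ⟨b, by
        rw [LinearMap.mem_ker, M.u_apply, hb, sub_self]⟩]
      have hli : LinearIndependent ℤ f := by
        rw [LinearIndependent.pair_iff]
        intro s t hst
        have hst' : s • a + t • b = 0 := congrArg Subtype.val hst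
        have h1 : E a (s • a + t • b) = 0 := by rw [hst', E_zero_right]
        have h2 : E b (s • a + t • b) = 0 := by rw [hst', E_zero_right]
        rw [E_add_right, E_smul_right, E_smul_right, E_self, mul_zero, zero_add] at h1
        rw [E_add_right, E_smul_right, E_smul_right, E_self, mul_zero, add_zero, E_anti b a] at h2
        constructor
        · rcases mul_eq_zero.1 h2 with h | h
          · exact h
          · exact absurd (neg_eq_zero.1 h) hab
        · rcases mul_eq_zero.1 h1 with h | h
          · exact h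
          · exact absurd h hab
      have := hli.fintype_card_le_finrank
      simpa using this
    omega

end Pool.Agent.H29.KT
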